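import Pool.Agent.W13.LM.Digits

/-! # Rational changes of the two numbers -/

set_option autoImplicit false

namespace Pool.Agent.W13.LM

lemma dist_rat (x y : ℝ) (q w : ℕ) (u v : ℤ) (hy : (w : ℝ) * y = u + v * x) :
    |((w * q : ℕ) : ℝ) * y - round (((w * q : ℕ) : ℝ) * y)| ≤ |(v : ℝ)| * |q * x - round (q * x)| := by
  have h := round_le (((w * q : ℕ) : ℝ) * y) ((q : ℤ) * u + v * round ((q : ℝ) * x))
  refine h.trans (le_of_eq ?_)
  rw [← abs_mul]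
  congr 1
  push_cast
  linear_combination (q : ℝ) * hy

lemma rat_rel (r s : ℚ) (x : ℝ) : ∃ (w : ℕ) (u v : ℤ), 0 < w ∧ (w : ℝ) * (r + s * x) = u + v * x := by
  refine ⟨r.den * s.den, r.num * s.den, s.num * r.den, Nat.mul_pos r.den_pos s.den_pos, ?_⟩
  have ha : (r.den : ℝ) * (r : ℝ) = r.num := by
    have := Rat.mul_den_eq_num r
    have h2 : ((r * r.den : ℚ) : ℝ) = ((r.num : ℚ) : ℝ) := by rw [this]
    push_cast at h2
    linarith
  have hb : (s.den : ℝ) * (s : ℝ) = s.num := by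
    have := Rat.mul_den_eq_num s
    have h2 : ((s * s.den : ℚ) : ℝ) = ((s.num : ℚ) : ℝ) := by rw [this]
    push_cast at h2
    linarith
  push_cast
  linear_combination (s.den : ℝ) * ha + (r.den : ℝ) * x * hb

lemma LC.rat {α β : ℝ} (h : LC α β) (r s r' s' : ℚ) : LC (r + s * α) (r' + s' * β) := by
  obtain ⟨w, u, v, hw, h1⟩ := rat_rel r s α
  obtain ⟨w', u', v', hw', h1'⟩ := rat_rel r' s' β
  refine lc_of_inf fun ε hε => ?_
  have hC : (0 : ℝ) < ((w * w' : ℕ) : ℝ) * (|(((w' : ℤ) * v : ℤ) : ℝ)| + 1)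
      * (|(((w : ℤ) * v' : ℤ) : ℝ)| + 1) := by
    have : 0 < w * w' := Nat.mul_pos hw hw'
    have h2 : (0 : ℝ) < ((w * w' : ℕ) : ℝ) := by exact_mod_cast this
    positivity
  obtain ⟨q, -, hq, hlt⟩ := h (ε / (((w * w' : ℕ) : ℝ) * (|(((w' : ℤ) * v : ℤ) : ℝ)| + 1)
      * (|(((w : ℤ) * v' : ℤ) : ℝ)| + 1))) (by positivity) 0
  refine ⟨w * w' * q, Nat.mul_pos (Nat.mul_pos hw hw') hq, ?_⟩
  have e1 : ((w * w' : ℕ) : ℝ) * (r + s * α) = (((w' : ℤ) * u : ℤ) : ℝ) + (((w' : ℤ) * v : ℤ) : ℝ) * α := by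
    push_cast
    linear_combination (w' : ℝ) * h1
  have e2 : ((w * w' : ℕ) : ℝ) * (r' + s' * β) = (((w : ℤ) * u' : ℤ) : ℝ) + (((w : ℤ) * v' : ℤ) : ℝ) * β := by
    push_cast
    linear_combination (w : ℝ) * h1'
  have d1 := dist_rat α (r + s * α) q (w * w') _ _ e1
  have d2 := dist_rat β (r' + s' * β) q (w * w') _ _ e2
  rw [lt_div_iff₀ hC] at hlt
  refine lt_of_le_of_lt ?_ hlt
  have n1 : 0 ≤ |(q : ℝ) * α - round ((q : ℝ) * α)| := abs_nonneg _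
  have n2 : 0 ≤ |(q : ℝ) * β - round ((q : ℝ) * β)| := abs_nonneg _
  calc ((w * w' * q : ℕ) : ℝ) * |((w * w' * q : ℕ) : ℝ) * (r + s * α)
          - round (((w * w' * q : ℕ) : ℝ) * (r + s * α))|
        * |((w * w' * q : ℕ) : ℝ) * (r' + s' * β) - round (((w * w' * q : ℕ) : ℝ) * (r' + s' * β))|
      ≤ ((w * w' * q : ℕ) : ℝ) * ((|(((w' : ℤ) * v : ℤ) : ℝ)| + 1) * |(q : ℝ) * α - round ((q : ℝ) * α)|)
        * ((|(((w : ℤ) * v' : ℤ) : ℝ)| + 1) * |(q : ℝ) * β - round ((q : ℝ) * β)|) := by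
        gcongr
        · exact d1.trans (by nlinarith)
        · exact d2.trans (by nlinarith)
    _ = _ := by push_cast; ring

end Pool.Agent.W13.LM
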