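import Mathlib

/-! # Littlewood's conjecture and backward continued fractions: basic estimates

`α = a₀ + 1 / (b 1 - 1 / (b 2 - ...))`, `D k = q k α - p k > 0`. -/

set_option autoImplicit false

namespace Pool.Agent.W13.LM

/-- Littlewood's conjecture for the pair `(α, β)` (the form of the frozen statement). -/
def LC (α β : ℝ) : Prop :=
  ∀ ε : ℝ, 0 < ε → ∀ N : ℕ, ∃ q : ℕ, N ≤ q ∧ 0 < q ∧
    (q : ℝ) * |(q : ℝ) * α - (round ((q : ℝ) * α) : ℝ)|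
      * |(q : ℝ) * β - (round ((q : ℝ) * β) : ℝ)| < ε

/-- the backward continued fraction of `α` -/
structure Exp (α : ℝ) (a₀ : ℤ) (b q : ℕ → ℤ) (D : ℕ → ℝ) : Prop where
  D0 : D 0 = 1
  D1 : D 1 = α - a₀
  Dr : ∀ k, D (k + 2) = b (k + 1) * D (k + 1) - D k
  Dp : ∀ k, 0 < D (k + 1)
  Dl : ∀ k, D (k + 1) < D k
  q0 : q 0 = 0
  q1 : q 1 = 1
  qr : ∀ k, q (k + 2) = b (k + 1) * q (k + 1) - q k

lemma dist_scale (x : ℝ) (N : ℕ) :
    |(N : ℝ) * x - round ((N : ℝ) * x)| ≤ N * |x - round x| := by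
  have h := round_le ((N : ℝ) * x) ((N : ℤ) * round x)
  refine h.trans (le_of_eq ?_)
  push_cast
  rw [← mul_sub, abs_mul, abs_of_nonneg (by positivity : (0:ℝ) ≤ N)]

lemma lc_of_inf {α β : ℝ}
    (h : ∀ ε : ℝ, 0 < ε → ∃ q : ℕ, 0 < q ∧ (q : ℝ) * |(q : ℝ) * α - (round ((q : ℝ) * α) : ℝ)|
      * |(q : ℝ) * β - (round ((q : ℝ) * β) : ℝ)| < ε) : LC α β := by
  intro ε hε N
  have hN : (0 : ℝ) < ((N + 1 : ℕ) : ℝ) := by positivity
  obtain ⟨q, hq, hlt⟩ := h (ε / ((N + 1 : ℕ) : ℝ) ^ 3) (by positivity)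
  refine ⟨(N + 1) * q, by nlinarith, by positivity, ?_⟩
  have h1 := dist_scale ((q : ℝ) * α) (N + 1)
  have h2 := dist_scale ((q : ℝ) * β) (N + 1)
  rw [lt_div_iff₀ (by positivity)] at hlt
  have e1 : (((N + 1) * q : ℕ) : ℝ) * α = ((N + 1 : ℕ) : ℝ) * ((q : ℝ) * α) := by push_cast; ring
  have e2 : (((N + 1) * q : ℕ) : ℝ) * β = ((N + 1 : ℕ) : ℝ) * ((q : ℝ) * β) := by push_cast; ring
  rw [e1, e2]
  refine lt_of_le_of_lt ?_ hlt
  calc (((N + 1) * q : ℕ) : ℝ) * |((N + 1 : ℕ) : ℝ) * ((q : ℝ) * α)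
          - round (((N + 1 : ℕ) : ℝ) * ((q : ℝ) * α))|
        * |((N + 1 : ℕ) : ℝ) * ((q : ℝ) * β) - round (((N + 1 : ℕ) : ℝ) * ((q : ℝ) * β))|
      ≤ (((N + 1) * q : ℕ) : ℝ) * (((N + 1 : ℕ) : ℝ) * |(q : ℝ) * α - round ((q : ℝ) * α)|)
        * (((N + 1 : ℕ) : ℝ) * |(q : ℝ) * β - round ((q : ℝ) * β)|) := by
        gcongr
    _ = _ := by push_cast; ring

/-- if the conjecture fails for `(α, β)`, then the products are bounded below for all `q`. -/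
lemma bad_of_not_lc {α β : ℝ} (h : ¬ LC α β) : ∃ c : ℝ, 0 < c ∧ c ≤ 1 / 2 ∧
    (∀ q : ℕ, 0 < q → c ≤ (q : ℝ) * |(q : ℝ) * α - (round ((q : ℝ) * α) : ℝ)|) ∧
    (∀ q : ℕ, 0 < q → c ≤ (q : ℝ) * |(q : ℝ) * α - (round ((q : ℝ) * α) : ℝ)|
      * |(q : ℝ) * β - (round ((q : ℝ) * β) : ℝ)|) := by
  have h1 := mt lc_of_inf h
  push Not at h1
  obtain ⟨c, hc, h2⟩ := h1
  have h3 : ∀ q : ℕ, 0 < q → c ≤ (q : ℝ) * |(q : ℝ) * α - (round ((q : ℝ) * α) : ℝ)| := by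
    intro q hq
    have h4 := h2 q hq
    have h5 : |(q : ℝ) * β - (round ((q : ℝ) * β) : ℝ)| ≤ 1 / 2 := abs_sub_round _
    have h6 : 0 ≤ (q : ℝ) * |(q : ℝ) * α - (round ((q : ℝ) * α) : ℝ)| := by positivity
    nlinarith
  refine ⟨c, hc, ?_, h3, h2⟩
  have h4 := h3 1 one_pos
  have h5 := abs_sub_round (((1 : ℕ) : ℝ) * α)
  push_cast at h4 h5 ⊢
  linarith

section basics

variable {α : ℝ} {a₀ : ℤ} {b q : ℕ → ℤ} {D : ℕ → ℝ}

lemma Exp.pos (E : Exp α a₀ b q D) (k : ℕ) : 0 < D k := by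
  cases k with
  | zero => rw [E.D0]; exact one_pos
  | succ k => exact E.Dp k

lemma Exp.anti (E : Exp α a₀ b q D) : Antitone D := antitone_nat_of_succ_le fun k => (E.Dl k).le

lemma Exp.wron (E : Exp α a₀ b q D) (k : ℕ) : (q (k + 1) : ℝ) * D k - q k * D (k + 1) = 1 := by
  induction k with
  | zero => rw [E.q0, E.D0, zero_add, E.q1]; push_cast; ring
  | succ k ih =>
    rw [E.qr, E.Dr]
    push_cast
    linear_combination ih

lemma Exp.two_le (E : Exp α a₀ b q D) (k : ℕ) : 2 ≤ b (k + 1) := by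
  by_contra hcon
  have h1 : b (k + 1) ≤ 1 := by omega
  have h2 : (b (k + 1) : ℝ) ≤ 1 := by exact_mod_cast h1
  have h3 := E.Dr k
  have h4 := E.Dp (k + 1)
  have h5 := E.Dl k
  have h6 := E.Dp k
  nlinarith

lemma Exp.qstep (E : Exp α a₀ b q D) (k : ℕ) : 0 ≤ q k ∧ q k + 1 ≤ q (k + 1) := by
  induction k with
  | zero => rw [E.q0, zero_add, E.q1]; norm_num
  | succ k ih =>
    have h := E.two_le k
    refine ⟨by linarith [ih.1, ih.2], ?_⟩
    rw [E.qr]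
    nlinarith [ih.1, ih.2]

lemma Exp.qnonneg (E : Exp α a₀ b q D) (k : ℕ) : (0 : ℝ) ≤ q k := by
  exact_mod_cast (E.qstep k).1

lemma Exp.qlt (E : Exp α a₀ b q D) (k : ℕ) : (q k : ℝ) + 1 ≤ q (k + 1) := by
  exact_mod_cast (E.qstep k).2

lemma Exp.qmono (E : Exp α a₀ b q D) : StrictMono q :=
  strictMono_nat_of_lt_succ fun k => by have := (E.qstep k).2; omega

lemma Exp.integ (E : Exp α a₀ b q D) : ∃ p : ℕ → ℤ, ∀ k, D k = q k * α - p k := by
  have h : ∀ k, (∃ p : ℤ, D k = q k * α - p) ∧ (∃ p : ℤ, D (k + 1) = q (k + 1) * α - p) := by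
    intro k
    induction k with
    | zero =>
      refine ⟨⟨-1, ?_⟩, ⟨a₀, ?_⟩⟩
      · rw [E.D0, E.q0]; push_cast; ring
      · rw [zero_add, E.D1, E.q1]; push_cast; ring
    | succ k ih =>
      obtain ⟨⟨p, hp⟩, ⟨p', hp'⟩⟩ := ih
      refine ⟨⟨p', hp'⟩, ⟨b (k + 1) * p' - p, ?_⟩⟩
      rw [E.Dr, E.qr, hp, hp']
      push_cast
      ring
  choose p hp using fun k => (h k).1
  exact ⟨p, hp⟩

lemma int_dist {α : ℝ} {c : ℝ}
    (hbad : ∀ q : ℕ, 0 < q → c ≤ (q : ℝ) * |(q : ℝ) * α - (round ((q : ℝ) * α) : ℝ)|)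
    {m : ℤ} (hm : 0 < m) (p : ℤ) : c ≤ m * |m * α - p| := by
  obtain ⟨k, rfl⟩ := Int.eq_ofNat_of_zero_le hm.le
  have h1 := hbad k (by omega)
  have h2 := round_le ((k : ℝ) * α) p
  push_cast
  refine h1.trans ?_
  gcongr

section bad

variable {c : ℝ} (hc : 0 < c) (E : Exp α a₀ b q D)
  (hbad : ∀ q : ℕ, 0 < q → c ≤ (q : ℝ) * |(q : ℝ) * α - (round ((q : ℝ) * α) : ℝ)|)

include E hbad in
lemma ed_lower (k : ℕ) : c ≤ ((q (k + 1) : ℝ) - q k) * (D k - D (k + 1)) := by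
  obtain ⟨p, hp⟩ := E.integ
  have h1 : 0 < q (k + 1) - q k := by have := (E.qstep k).2; omega
  have h2 := int_dist hbad h1 (p (k + 1) - p k)
  have h3 : ((q (k + 1) - q k : ℤ) : ℝ) * α - ((p (k + 1) - p k : ℤ) : ℝ) = D (k + 1) - D k := by
    rw [hp, hp]; push_cast; ring
  rw [h3, abs_of_neg (by linarith [E.Dl k])] at h2
  push_cast at h2
  linarith

include E hbad in
lemma qd_lower (k : ℕ) : c ≤ (q (k + 1) : ℝ) * D (k + 1) := by
  obtain ⟨p, hp⟩ := E.integ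
  have h1 : 0 < q (k + 1) := by have := (E.qstep k); omega
  have h2 := int_dist hbad h1 (p (k + 1))
  rwa [← hp, abs_of_pos (E.Dp k)] at h2

include hc E hbad in
lemma decay (k : ℕ) : c * D k ≤ D k - D (k + 1) := by
  have h1 := ed_lower E hbad k
  have h2 := E.wron k
  have h3 := E.qlt k
  have h4 := E.qnonneg k
  have h5 := E.Dl k
  have h6 := E.pos k
  have h7 : ((q (k + 1) : ℝ) - q k) * D k ≤ 1 := by nlinarith
  have h8 : 0 < (q (k + 1) : ℝ) - q k := by linarith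
  by_contra hcon
  push Not at hcon
  nlinarith

include E hbad in
lemma growth (k : ℕ) : c * q k ≤ (q (k + 1) : ℝ) - q k := by
  have h1 := ed_lower E hbad k
  have h2 := E.wron k
  have h3 := E.qlt k
  have h4 := E.qnonneg k
  have h5 := E.Dl k
  have h6 := E.pos k
  have h7 : (q k : ℝ) * (D k - D (k + 1)) ≤ 1 := by nlinarith
  have h8 : 0 < (q (k + 1) : ℝ) - q k := by linarith
  by_contra hcon
  push Not at hcon
  nlinarith

include hc E hbad in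
lemma qd_upper (k : ℕ) : c * ((q k : ℝ) * D k) ≤ 1 := by
  have h1 := decay hc E hbad k
  have h2 := E.wron k
  have h3 := E.qlt k
  have h4 := E.qnonneg k
  have h6 := E.pos k
  nlinarith

include hc E hbad in
lemma pow_decay (hc1 : c ≤ 1 / 2) (i k : ℕ) : c * ((q i : ℝ) * D (i + k)) ≤ (1 - c) ^ k := by
  have h : D (i + k) ≤ (1 - c) ^ k * D i := by
    induction k with
    | zero => simp
    | succ k ih =>
      have h1 := decay hc E hbad (i + k)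
      have h2 : D (i + (k + 1)) ≤ (1 - c) * D (i + k) := by
        rw [← add_assoc]; linarith
      refine h2.trans ?_
      rw [pow_succ']
      have : 0 ≤ 1 - c := by linarith
      nlinarith
  have h1 := qd_upper hc E hbad i
  have h2 := E.qnonneg i
  have h3 : 0 ≤ (1 - c) ^ k := by
    have : 0 ≤ 1 - c := by linarith
    positivity
  calc c * ((q i : ℝ) * D (i + k)) ≤ c * ((q i : ℝ) * ((1 - c) ^ k * D i)) := by gcongr
    _ = (1 - c) ^ k * (c * ((q i : ℝ) * D i)) := by ring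
    _ ≤ (1 - c) ^ k * 1 := by gcongr
    _ = _ := mul_one _

include hc E hbad in
lemma two_step (k : ℕ) : c ^ 3 * ((q (k + 2) : ℝ) * D k) ≤ (c + 1) ^ 2 := by
  have w1 := E.wron k
  have w2 := E.wron (k + 1)
  have u0 := qd_upper hc E hbad k
  have u1 := qd_upper hc E hbad (k + 1)
  have l1 := qd_lower E hbad k
  have n0 := E.qnonneg k
  have n1 := E.qnonneg (k + 1)
  have n2 := E.qnonneg (k + 2)
  have d0 := E.pos k
  have d1 := E.pos (k + 1)
  have d2 := E.pos (k + 2)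
  have m0 := E.Dl k
  have m1 := E.Dl (k + 1)
  have h1 : c * ((q (k + 1) : ℝ) * D k) ≤ c + 1 := by
    have : (q k : ℝ) * D (k + 1) ≤ q k * D k := by gcongr
    nlinarith
  have h2 : c * ((q (k + 2) : ℝ) * D (k + 1)) ≤ c + 1 := by
    have : (q (k + 1) : ℝ) * D (k + 2) ≤ q (k + 1) * D (k + 1) := by gcongr
    have w2' : (q (k + 2) : ℝ) * D (k + 1) - q (k + 1) * D (k + 2) = 1 := w2
    nlinarith
  have h3 : 0 ≤ c * ((q (k + 2) : ℝ) * D (k + 1)) := by positivity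
  have h3' : 0 ≤ c * ((q (k + 1) : ℝ) * D k) := by positivity
  have h4 : (c * ((q (k + 1) : ℝ) * D k)) * (c * ((q (k + 2) : ℝ) * D (k + 1))) ≤ (c + 1) ^ 2 := by
    rw [sq]
    exact mul_le_mul h1 h2 h3 (by linarith)
  have h5 : 0 ≤ c ^ 2 * ((q (k + 2) : ℝ) * D k) := by positivity
  calc c ^ 3 * ((q (k + 2) : ℝ) * D k) = c ^ 2 * ((q (k + 2) : ℝ) * D k) * c := by ring
    _ ≤ c ^ 2 * ((q (k + 2) : ℝ) * D k) * ((q (k + 1) : ℝ) * D (k + 1)) := by gcongr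
    _ = (c * ((q (k + 1) : ℝ) * D k)) * (c * ((q (k + 2) : ℝ) * D (k + 1))) := by ring
    _ ≤ _ := h4

end bad

end basics

end Pool.Agent.W13.LM
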