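import Pool.Agent.H238R3.UL.Poly

/-! # Density modulo one of polynomial orbits on tori -/

set_option autoImplicit false

open Finset Polynomial

namespace Pool.Agent.W13.LM

open Pool.Agent.H332R2.Lit

lemma weyl_irr (P : ℝ[X]) (d : ℕ) (hP : P.natDegree ≤ d + 1) (hi : Irrational (P.coeff (d + 1)))
    (κ : ℝ) (hκ : 0 < κ) : ∃ N₀ : ℕ, ∀ N ≥ N₀, ‖∑ l ∈ range N, e (P.eval (l:ℝ))‖ ≤ κ * N := by
  obtain ⟨M, hM, h⟩ := Pool.Agent.H238R3.UL.weyl_unif d κ hκ
  obtain ⟨m₀, hm₀, hmin⟩ := Finset.exists_min_image (Finset.Icc 1 M)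
    (fun m : ℕ => |(m:ℝ) * P.coeff (d+1) - round ((m:ℝ) * P.coeff (d+1))|)
    ⟨1, Finset.mem_Icc.2 ⟨le_rfl, hM⟩⟩
  have hpos : 0 < |(m₀:ℝ) * P.coeff (d+1) - round ((m₀:ℝ) * P.coeff (d+1))| := by
    rw [abs_pos]
    intro h0
    have h1 : Irrational ((m₀ : ℝ) * P.coeff (d+1)) :=
      hi.natCast_mul (by have := (Finset.mem_Icc.1 hm₀).1; omega)
    exact h1.ne_int (round ((m₀:ℝ) * P.coeff (d+1))) (by linarith)
  obtain ⟨N₀, hN₀⟩ := h _ hpos
  exact ⟨N₀, fun N hN => hN₀ P hP hmin N hN⟩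

/-- the kernel `(1 + cos 2πx) / 2` -/
noncomputable def kap (x : ℝ) : ℝ := (1 + Real.cos (2 * Real.pi * x)) / 2

lemma e_add_e_neg (x : ℝ) : e x + e (-x) = ((2 * Real.cos (2 * Real.pi * x) : ℝ) : ℂ) := by
  unfold e
  push_cast
  rw [Complex.cos]
  ring_nf

lemma kap_eq (x : ℝ) : ((kap x : ℝ) : ℂ) = ((e (x / 2) + e (-(x / 2))) / 2) ^ 2 := by
  have h1 : e (x / 2) * e (x / 2) = e x := by rw [← e_add]; congr 1; ring
  have h2 : e (-(x / 2)) * e (-(x / 2)) = e (-x) := by rw [← e_add]; congr 1; ring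
  have h3 : e (x / 2) * e (-(x / 2)) = 1 := by rw [← e_add, add_neg_cancel, e_zero]
  have h4 := e_add_e_neg x
  have h5 : ((kap x : ℝ) : ℂ) = (2 + ((2 * Real.cos (2 * Real.pi * x) : ℝ) : ℂ)) / 4 := by
    unfold kap
    push_cast
    ring
  rw [h5, ← h4, ← h1, ← h2]
  linear_combination (-(1 : ℂ) / 2) * h3

lemma kap_nonneg (x : ℝ) : 0 ≤ kap x := by
  unfold kap
  have := Real.neg_one_le_cos (2 * Real.pi * x)
  linarith

lemma kap_le_one (x : ℝ) : kap x ≤ 1 := by
  unfold kap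
  have := Real.cos_le_one (2 * Real.pi * x)
  linarith

lemma kap_le (x : ℝ) : kap x ≤ 1 - 4 * |x - round x| ^ 2 := by
  have h1 := norm_one_sub_e x
  have h2 : ‖1 - e x‖ ^ 2 = 2 - 2 * Real.cos (2 * Real.pi * x) := by
    have h3 : ((‖1 - e x‖ ^ 2 : ℝ) : ℂ) = (1 - e x) * (1 - e (-x)) := by
      have h4 : (1 - e (-x)) = (starRingEnd ℂ) (1 - e x) := by
        rw [map_sub, map_one, conj_e]
      rw [h4, Complex.mul_conj, Complex.normSq_eq_norm_sq]
    have h4 : (1 - e x) * (1 - e (-x)) = ((2 - 2 * Real.cos (2 * Real.pi * x) : ℝ) : ℂ) := by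
      have h5 : e x * e (-x) = 1 := by rw [← e_add, add_neg_cancel, e_zero]
      have h6 := e_add_e_neg x
      push_cast at h6 ⊢
      linear_combination h5 - h6
    rw [h4] at h3
    exact_mod_cast h3
  unfold kap
  have h3 : 0 ≤ |x - round x| := abs_nonneg _
  nlinarith

/-- the weights -/
noncomputable def wt (n k : ℕ) : ℝ := (Nat.choose (2 * n) k : ℝ) / 4 ^ n

lemma wt_nonneg (n k : ℕ) : 0 ≤ wt n k := by unfold wt; positivity

lemma kap_pow (x : ℝ) (n : ℕ) : (((kap x) ^ n : ℝ) : ℂ)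
    = ∑ k ∈ range (2 * n + 1), (wt n k : ℂ) * e (((k : ℝ) - n) * x) := by
  rw [Complex.ofReal_pow, kap_eq, ← pow_mul, div_pow, add_pow, sum_div]
  refine sum_congr rfl fun k hk => ?_
  have hk' : k ≤ 2 * n := by have := mem_range.1 hk; omega
  rw [← e_nat_mul, ← e_nat_mul, ← e_add]
  unfold wt
  push_cast [Nat.cast_sub hk']
  rw [pow_mul, show (2 : ℂ) ^ 2 = 4 by norm_num,
    show ((k : ℝ) * (x / 2) + (2 * (n : ℝ) - k) * -(x / 2)) = ((k : ℝ) - n) * x by ring]
  ring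

lemma wt_mid (n : ℕ) (hn : 0 < n) : 1 ≤ (2 * (n : ℝ)) * wt n n := by
  have h := Nat.four_pow_le_two_mul_self_mul_centralBinom n hn
  unfold wt
  rw [← Nat.centralBinom]
  have h4 : (0 : ℝ) < 4 ^ n := by positivity
  rw [mul_div_assoc', le_div_iff₀ h4, one_mul]
  exact_mod_cast h

lemma e_sum {J : Type*} (s : Finset J) (f : J → ℝ) : e (∑ j ∈ s, f j) = ∏ j ∈ s, e (f j) := by
  classical
  induction s using Finset.induction_on with
  | empty => simp [e_zero]
  | insert a s ha ih => rw [sum_insert ha, prod_insert ha, e_add, ih]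

set_option maxHeartbeats 4000000 in
theorem dense_poly {J : Type*} [Fintype J] [DecidableEq J] (Q : J → ℝ[X])
    (hQ : ∀ h : J → ℤ, h ≠ 0 → ∃ d : ℕ, (∑ j, C (h j : ℝ) * Q j).natDegree ≤ d + 1 ∧
      Irrational ((∑ j, C (h j : ℝ) * Q j).coeff (d + 1)))
    (t : J → ℝ) (δ : ℝ) (hδ : 0 < δ) (N₁ : ℕ) :
    ∃ c : ℕ, N₁ ≤ c ∧ ∀ j, |((Q j).eval (c : ℝ) - t j) - round ((Q j).eval (c : ℝ) - t j)| < δ := by
  by_contra hcon
  push Not at hcon
  -- choose n
  have hδ1 : 4 * δ ^ 2 ≤ 1 := by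
    obtain ⟨j, hj⟩ := hcon N₁ le_rfl
    have h1 := abs_sub_round ((Q j).eval (N₁ : ℝ) - t j)
    nlinarith
  set ρ : ℝ := 1 - 4 * δ ^ 2 with hρ
  have hρ0 : 0 ≤ ρ := by linarith
  have hρ1 : ρ < 1 := by have : 0 < δ ^ 2 := by positivity
                         linarith
  have hn : ∃ n : ℕ, 0 < n ∧ 4 * (2 : ℝ) ^ (Fintype.card J) * ((n : ℝ) ^ (Fintype.card J) * ρ ^ n)
      < 1 := by
    have h1 := tendsto_pow_const_mul_const_pow_of_abs_lt_one (Fintype.card J)
      (r := ρ) (by rw [abs_of_nonneg hρ0]; exact hρ1)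
    have h2 := h1.const_mul (4 * (2 : ℝ) ^ (Fintype.card J))
    rw [mul_zero] at h2
    have h3 := (h2.eventually (gt_mem_nhds one_pos)).and (Filter.eventually_gt_atTop 0)
    obtain ⟨n, h4, h5⟩ := h3.exists
    exact ⟨n, h5, h4⟩
  obtain ⟨n, hn0, hn⟩ := hn
  set F : ℕ → ℝ := fun c => ∏ j, (kap ((Q j).eval (c : ℝ) - t j)) ^ n with hF
  have hF0 : ∀ c, 0 ≤ F c := fun c => prod_nonneg fun j _ => pow_nonneg (kap_nonneg _) _
  have hF1 : ∀ c, F c ≤ 1 := fun c => prod_le_one (fun j _ => pow_nonneg (kap_nonneg _) _)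
    fun j _ => pow_le_one₀ (kap_nonneg _) (kap_le_one _)
  have hFs : ∀ c, N₁ ≤ c → F c ≤ ρ ^ n := by
    intro c hc
    obtain ⟨j, hj⟩ := hcon c hc
    have h1 : (kap ((Q j).eval (c : ℝ) - t j)) ^ n ≤ ρ ^ n := by
      refine pow_le_pow_left₀ (kap_nonneg _) ((kap_le _).trans ?_) n
      have : δ ^ 2 ≤ |((Q j).eval (c : ℝ) - t j) - round ((Q j).eval (c : ℝ) - t j)| ^ 2 :=
        pow_le_pow_left₀ hδ.le hj 2
      simp only [hρ]
      linarith
    simp only [hF]
    rw [← mul_prod_erase univ _ (mem_univ j)]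
    calc _ ≤ ρ ^ n * 1 := by
          refine mul_le_mul h1 ?_ ?_ (by positivity)
          · exact prod_le_one (fun j _ => pow_nonneg (kap_nonneg _) _)
              fun j _ => pow_le_one₀ (kap_nonneg _) (kap_le_one _)
          · exact prod_nonneg fun j _ => pow_nonneg (kap_nonneg _) _
      _ = _ := mul_one _
  -- expansion
  set K : Finset (J → ℕ) := Fintype.piFinset (fun _ : J => range (2 * n + 1)) with hK
  set P : (J → ℕ) → ℝ[X] := fun κ => ∑ j, C (((κ j : ℤ) - n : ℤ) : ℝ) * Q j with hP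
  have hexp : ∀ c : ℕ, ((F c : ℝ) : ℂ) = ∑ κ ∈ K, ((∏ j, wt n (κ j) : ℝ) : ℂ)
      * e (-∑ j, ((κ j : ℝ) - n) * t j) * e ((P κ).eval (c : ℝ)) := by
    intro c
    simp only [hF]
    rw [Complex.ofReal_prod]
    simp_rw [kap_pow]
    rw [prod_univ_sum]
    refine sum_congr rfl fun κ _ => ?_
    rw [prod_mul_distrib, ← e_sum, Complex.ofReal_prod, mul_assoc, ← e_add]
    congr 2
    simp only [hP, eval_finsetSum, eval_mul, eval_C]
    rw [← sub_eq_neg_add, ← sum_sub_distrib]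
    refine sum_congr rfl fun j _ => ?_
    push_cast
    ring
  set κ₀ : J → ℕ := fun _ => n with hκ₀
  have hκ₀K : κ₀ ∈ K := by
    rw [hK, Fintype.mem_piFinset]
    intro j
    rw [mem_range]
    simp only [hκ₀]
    omega
  set A : ℝ := ∏ j : J, wt n (κ₀ j) with hA
  have hApos : 0 < A := by
    refine prod_pos fun j _ => ?_
    have := wt_mid n hn0
    simp only [hκ₀]
    by_contra h0
    push Not at h0
    have h1 : (0 : ℝ) < n := by exact_mod_cast hn0
    nlinarith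
  set W : ℝ := ∑ κ ∈ K, ∏ j, wt n (κ j) with hW
  have hW0 : 0 ≤ W := sum_nonneg fun κ _ => prod_nonneg fun j _ => wt_nonneg _ _
  -- Weyl for all frequencies
  have hweyl : ∀ κ ∈ K.erase κ₀, ∃ N₀ : ℕ, ∀ N ≥ N₀,
      ‖∑ l ∈ range N, e ((P κ).eval (l:ℝ))‖ ≤ (A / (4 * (W + 1))) * N := by
    intro κ hκ
    have hne : (fun j => (κ j : ℤ) - n : J → ℤ) ≠ 0 := by
      intro h0
      apply (mem_erase.1 hκ).1
      funext j
      have := congrFun h0 j
      simp only [Pi.zero_apply] at this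
      simp only [hκ₀]
      omega
    obtain ⟨d, h1, h2⟩ := hQ _ hne
    exact weyl_irr (P κ) d h1 h2 _ (by positivity)
  choose! N₀ hN₀ using hweyl
  set N : ℕ := ∑ κ ∈ K.erase κ₀, N₀ κ + ⌈4 * (N₁ + 1) / A⌉₊ with hN
  have hNle : ∀ κ ∈ K.erase κ₀, N₀ κ ≤ N := fun κ hκ =>
    (single_le_sum (f := N₀) (fun _ _ => Nat.zero_le _) hκ).trans (Nat.le_add_right _ _)
  have hNA : 4 * ((N₁ : ℝ) + 1) ≤ A * N := by
    have h1 : 4 * ((N₁ : ℝ) + 1) / A ≤ N := by
      refine (Nat.le_ceil _).trans ?_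
      have : ⌈4 * ((N₁ : ℝ) + 1) / A⌉₊ ≤ N := Nat.le_add_left _ _
      exact_mod_cast this
    rw [div_le_iff₀ hApos] at h1
    linarith
  -- the sum from below
  have hlow : A * N - A / 4 * N ≤ ∑ c ∈ range N, F c := by
    have h1 : ((∑ c ∈ range N, F c : ℝ) : ℂ) - ((A * N : ℝ) : ℂ)
        = ∑ κ ∈ K.erase κ₀, ((∏ j, wt n (κ j) : ℝ) : ℂ)
          * e (-∑ j, ((κ j : ℝ) - n) * t j) * ∑ c ∈ range N, e ((P κ).eval (c : ℝ)) := by
      rw [Complex.ofReal_sum]
      simp_rw [hexp]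
      rw [sum_comm]
      simp_rw [← mul_sum]
      rw [← add_sum_erase _ _ hκ₀K]
      have h2 : ∑ c ∈ range N, e ((P κ₀).eval (c : ℝ)) = N := by
        have h3 : P κ₀ = 0 := by
          simp only [hP, hκ₀]
          simp
        rw [h3]
        simp [e_zero]
      have h4 : e (-∑ j, ((κ₀ j : ℝ) - n) * t j) = 1 := by
        simp only [hκ₀]
        simp [e_zero]
      rw [h2, h4, ← hA]
      push_cast
      ring
    have h2 : ‖((∑ c ∈ range N, F c : ℝ) : ℂ) - ((A * N : ℝ) : ℂ)‖ ≤ A / 4 * N := by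
      rw [h1]
      calc _ ≤ ∑ κ ∈ K.erase κ₀, (∏ j, wt n (κ j)) * ((A / (4 * (W + 1))) * N) := by
            refine norm_sum_le_of_le _ fun κ hκ => ?_
            rw [norm_mul, norm_mul, norm_e, mul_one, Complex.norm_real, Real.norm_eq_abs,
              abs_of_nonneg (prod_nonneg fun j _ => wt_nonneg _ _)]
            exact mul_le_mul_of_nonneg_left (hN₀ κ hκ N (hNle κ hκ))
              (prod_nonneg fun j _ => wt_nonneg _ _)
        _ ≤ ∑ κ ∈ K, (∏ j, wt n (κ j)) * ((A / (4 * (W + 1))) * N) := by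
            refine sum_le_sum_of_subset_of_nonneg (erase_subset _ _) fun κ _ _ => ?_
            exact mul_nonneg (prod_nonneg fun j _ => wt_nonneg _ _) (by positivity)
        _ = W * ((A / (4 * (W + 1))) * N) := by rw [← sum_mul]
        _ ≤ (W + 1) * ((A / (4 * (W + 1))) * N) := by
            gcongr
            linarith
        _ = _ := by field_simp
    rw [← Complex.ofReal_sub, Complex.norm_real, Real.norm_eq_abs] at h2
    have := (abs_le.1 h2).1
    linarith
  have hup : ∑ c ∈ range N, F c ≤ N₁ + ρ ^ n * N := by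
    calc ∑ c ∈ range N, F c ≤ ∑ c ∈ range N, ((if c < N₁ then 1 else 0) + ρ ^ n) := by
          refine sum_le_sum fun c _ => ?_
          split_ifs with h
          · have := hF1 c
            have h2 : 0 ≤ ρ ^ n := by positivity
            linarith
          · have := hFs c (by omega)
            linarith
      _ = (∑ c ∈ range N, if c < N₁ then (1 : ℝ) else 0) + ρ ^ n * N := by
          rw [sum_add_distrib, sum_const, card_range, nsmul_eq_mul]
          ring
      _ ≤ _ := by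
          gcongr
          rw [← sum_filter, sum_const, nsmul_eq_mul, mul_one]
          have : (range N).filter (fun c => c < N₁) ⊆ range N₁ := by
            intro c hc
            exact mem_range.2 (mem_filter.1 hc).2
          have := card_le_card this
          rw [card_range] at this
          exact_mod_cast this
  -- compare
  have hAlow : 4 * ρ ^ n < A := by
    have h1 : 1 ≤ (2 * (n : ℝ)) ^ (Fintype.card J) * A := by
      rw [hA]
      simp only [hκ₀, prod_const, card_univ]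
      rw [← mul_pow]
      exact one_le_pow₀ (wt_mid n hn0)
    have h2 : (2 * (n : ℝ)) ^ (Fintype.card J) * (4 * ρ ^ n) < 1 := by
      rw [mul_pow]
      linarith
    have h3 : (0 : ℝ) < (2 * (n : ℝ)) ^ (Fintype.card J) := by positivity
    by_contra h4
    push Not at h4
    have := mul_le_mul_of_nonneg_left h4 h3.le
    linarith
  have hN1 : (0 : ℝ) ≤ N := by positivity
  have hN₁ : (0 : ℝ) ≤ N₁ := by positivity
  nlinarith

end Pool.Agent.W13.LM
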