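import Pool.Agent.W13.LM.Mirror

/-! # Digit expansions, existence of the backward continued fraction -/

set_option autoImplicit false

open Finset

namespace Pool.Agent.W13.LM

variable {α : ℝ} {a₀ : ℤ} {b q : ℕ → ℤ} {D : ℕ → ℝ}

lemma Exp.integ' (E : Exp α a₀ b q D) : ∃ p : ℕ → ℤ, (∀ k, D k = q k * α - p k) ∧
    (∀ k, p (k + 2) = b (k + 1) * p (k + 1) - p k) ∧
    (∀ k, q k * p (k + 1) - q (k + 1) * p k = 1) := by
  obtain ⟨p, hp⟩ := E.integ
  refine ⟨p, hp, ?_, ?_⟩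
  · intro k
    have h0 := hp k
    have h1 := hp (k + 1)
    have h2 := hp (k + 2)
    have h3 := E.Dr k
    have h4 : (q (k + 2) : ℝ) = b (k + 1) * q (k + 1) - q k := by
      rw [E.qr]; push_cast; ring
    have h5 : (p (k + 2) : ℝ) = b (k + 1) * p (k + 1) - p k := by
      linear_combination h2 - h3 + α * h4 - (b (k + 1) : ℝ) * h1 + h0
    exact_mod_cast h5
  · intro k
    have h0 := hp k
    have h1 := hp (k + 1)
    have h3 := E.wron k
    have h5 : (q k : ℝ) * p (k + 1) - q (k + 1) * p k = 1 := by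
      rw [h0, h1] at h3
      linarith
    exact_mod_cast h5

/-- the integers attached to a digit expansion -/
def nn (q p x : ℕ → ℤ) (m : ℕ) : ℤ := ∑ k ∈ range m, x k * (q k * p m - q m * p k)

lemma nn_rec {p : ℕ → ℤ} (E : Exp α a₀ b q D)
    (hp : ∀ k, p (k + 2) = b (k + 1) * p (k + 1) - p k)
    (hw : ∀ k, q k * p (k + 1) - q (k + 1) * p k = 1) (x : ℕ → ℤ) (m : ℕ) :
    nn q p x (m + 2) + nn q p x m - b (m + 1) * nn q p x (m + 1) = x (m + 1) := by
  unfold nn
  rw [sum_range_succ, sum_range_succ, sum_range_succ _ m, mul_add, mul_sum]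
  have h1 : ∀ k, x k * (q k * p (m + 2) - q (m + 2) * p k) + x k * (q k * p m - q m * p k)
      - b (m + 1) * (x k * (q k * p (m + 1) - q (m + 1) * p k)) = 0 := by
    intro k
    rw [hp m, E.qr m]
    ring
  have h2 : ∑ k ∈ range m, x k * (q k * p (m + 2) - q (m + 2) * p k)
      + ∑ k ∈ range m, x k * (q k * p m - q m * p k)
      - ∑ k ∈ range m, b (m + 1) * (x k * (q k * p (m + 1) - q (m + 1) * p k)) = 0 := by
    rw [← sum_add_distrib, ← sum_sub_distrib]
    exact sum_eq_zero fun k _ => h1 k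
  have h3 := hw (m + 1)
  have h4 := hw m
  have h5 : q m * p (m + 2) - q (m + 2) * p m = b (m + 1) := by
    rw [hp m, E.qr m]
    linear_combination (b (m + 1)) * h4
  rw [show m + 1 + 1 = m + 2 by ring] at h3 ⊢
  rw [h3, h4, h5]
  linear_combination h2

lemma nn_bound {p : ℕ → ℤ} {c : ℝ} (hc : 0 < c) (E : Exp α a₀ b q D)
    (hbad : ∀ q : ℕ, 0 < q → c ≤ (q : ℝ) * |(q : ℝ) * α - (round ((q : ℝ) * α) : ℝ)|)
    (hp : ∀ k, D k = q k * α - p k) (x : ℕ → ℤ) (B : ℝ) (hx : ∀ k, |(x k : ℝ)| ≤ B) (m : ℕ) :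
    |(q m : ℝ) * (∑' k, (x k : ℝ) * D k) - nn q p x m| ≤ 2 * B / c ^ 2 := by
  have hB : 0 ≤ B := (abs_nonneg _).trans (hx 0)
  -- summability
  have hDp := E.pos
  have hpart : ∀ m K : ℕ, c * ∑ k ∈ range K, D (k + m) ≤ D m := by
    intro m K
    have h1 : ∀ K : ℕ, c * ∑ k ∈ range K, D (k + m) ≤ D m - D (K + m) := by
      intro K
      induction K with
      | zero => simp
      | succ K ih =>
        rw [sum_range_succ, mul_add]
        have h2 := decay hc E hbad (K + m)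
        rw [show K + 1 + m = K + m + 1 by ring]
        linarith
    have h2 := hDp (K + m)
    linarith [h1 K]
  have hsumD : Summable D := by
    refine summable_of_sum_range_le (c := D 0 / c) (fun k => (hDp k).le) ?_
    intro K
    rw [le_div_iff₀ hc]
    have := hpart 0 K
    simp only [add_zero] at this
    linarith
  have hsum : Summable fun k => (x k : ℝ) * D k := by
    refine Summable.of_norm_bounded (hsumD.mul_left B) ?_
    intro k
    rw [Real.norm_eq_abs, abs_mul, abs_of_pos (hDp k)]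
    exact mul_le_mul_of_nonneg_right (hx k) (hDp k).le
  have htail : ∑' k, (x k : ℝ) * D k = ∑ k ∈ range m, (x k : ℝ) * D k
      + ∑' k, (x (k + m) : ℝ) * D (k + m) := (hsum.sum_add_tsum_nat_add m).symm
  have htb : c * |∑' k, (x (k + m) : ℝ) * D (k + m)| ≤ B * D m := by
    have hs2 : Summable fun k => D (k + m) := (summable_nat_add_iff m).2 hsumD
    have h1 : ‖∑' k, (x (k + m) : ℝ) * D (k + m)‖ ≤ ∑' k, B * D (k + m) := by
      refine tsum_of_norm_bounded (hs2.mul_left B).hasSum ?_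
      intro k
      rw [Real.norm_eq_abs, abs_mul, abs_of_pos (hDp _)]
      exact mul_le_mul_of_nonneg_right (hx _) (hDp _).le
    rw [Real.norm_eq_abs, tsum_mul_left] at h1
    have h2 : c * ∑' k, D (k + m) ≤ D m := by
      have h3 : ∑' k, D (k + m) ≤ D m / c := by
        refine Summable.tsum_le_of_sum_range_le hs2 ?_
        intro K
        rw [le_div_iff₀ hc]
        linarith [hpart m K]
      rw [le_div_iff₀ hc] at h3
      linarith
    calc c * |∑' k, (x (k + m) : ℝ) * D (k + m)| ≤ c * (B * ∑' k, D (k + m)) := by gcongr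
      _ = B * (c * ∑' k, D (k + m)) := by ring
      _ ≤ _ := by gcongr
  have hqs : c * |∑ k ∈ range m, (x k : ℝ) * q k| ≤ B * q m := by
    have h1 : c * ∑ k ∈ range m, (q k : ℝ) ≤ q m := by
      have h2 : ∀ m : ℕ, c * ∑ k ∈ range m, (q k : ℝ) ≤ q m - q 0 := by
        intro m
        induction m with
        | zero => simp
        | succ m ih =>
          rw [sum_range_succ, mul_add]
          have := growth E hbad m
          linarith
      have := h2 m
      rw [E.q0] at this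
      push_cast at this
      linarith
    have h2 : |∑ k ∈ range m, (x k : ℝ) * q k| ≤ B * ∑ k ∈ range m, (q k : ℝ) := by
      rw [mul_sum]
      refine (abs_sum_le_sum_abs _ _).trans (sum_le_sum fun k _ => ?_)
      rw [abs_mul, abs_of_nonneg (E.qnonneg k)]
      exact mul_le_mul_of_nonneg_right (hx k) (E.qnonneg k)
    calc c * |∑ k ∈ range m, (x k : ℝ) * q k| ≤ c * (B * ∑ k ∈ range m, (q k : ℝ)) := by gcongr
      _ = B * (c * ∑ k ∈ range m, (q k : ℝ)) := by ring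
      _ ≤ _ := by gcongr
  have hid : (q m : ℝ) * (∑' k, (x k : ℝ) * D k) - nn q p x m
      = q m * (∑' k, (x (k + m) : ℝ) * D (k + m)) + D m * (∑ k ∈ range m, (x k : ℝ) * q k) := by
    rw [htail, mul_add]
    have h1 : (nn q p x m : ℝ) = ∑ k ∈ range m, (q m * ((x k : ℝ) * D k)
        - D m * ((x k : ℝ) * q k)) := by
      unfold nn
      push_cast
      refine sum_congr rfl fun k _ => ?_
      rw [hp k, hp m]
      ring
    rw [h1, sum_sub_distrib, ← mul_sum, ← mul_sum]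
    ring
  rw [hid, le_div_iff₀ (by positivity)]
  have hqd := qd_upper hc E hbad m
  have hqm := E.qnonneg m
  have hDm := hDp m
  calc |(q m : ℝ) * (∑' k, (x (k + m) : ℝ) * D (k + m)) + D m * (∑ k ∈ range m, (x k : ℝ) * q k)|
        * c ^ 2
      ≤ (|(q m : ℝ) * (∑' k, (x (k + m) : ℝ) * D (k + m))|
        + |D m * (∑ k ∈ range m, (x k : ℝ) * q k)|) * c ^ 2 := by
        gcongr
        exact abs_add_le _ _
    _ = c * (q m * (c * |∑' k, (x (k + m) : ℝ) * D (k + m)|)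
        + D m * (c * |∑ k ∈ range m, (x k : ℝ) * q k|)) := by
        rw [abs_mul, abs_mul, abs_of_nonneg hqm, abs_of_pos hDm]
        ring
    _ ≤ c * (q m * (B * D m) + D m * (B * q m)) := by gcongr
    _ = 2 * B * (c * (q m * D m)) := by ring
    _ ≤ 2 * B * 1 := by gcongr
    _ = 2 * B := mul_one _

/-- **Mirror words in digit expansions.** -/
theorem mirror_digits (E : Exp α a₀ b q D) (x : ℕ → ℤ) (B : ℝ) (hx : ∀ k, |(x k : ℝ)| ≤ B)
    (h : ∀ K : ℕ, ∃ (s : ℕ) (σ : ℤ), 2 * K ≤ s ∧ (σ = 1 ∨ σ = -1) ∧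
      ∀ i j : ℕ, i + j = s → i ≤ j + 2 * K → j ≤ i + 2 * K → b (i + 1) = b (j + 1) ∧
        x (i + 1) = σ * x (j + 1)) : LC α (∑' k, (x k : ℝ) * D k) := by
  by_contra hcon
  obtain ⟨c, hc, hc1, hbad, -⟩ := bad_of_not_lc hcon
  obtain ⟨p, hp, hpr, hw⟩ := E.integ'
  refine hcon (mirror E _ (2 * B / c ^ 2) ?_)
  intro K
  obtain ⟨s, σ, h1, h2, h3⟩ := h K
  refine ⟨nn q p x, s, σ, h1, h2, nn_bound hc E hbad hp x B hx, ?_⟩
  intro i j hij hi hj
  obtain ⟨h4, h5⟩ := h3 i j hij hi hj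
  exact ⟨h4, by rw [nn_rec E hpr hw, nn_rec E hpr hw, h5]⟩

/-- every irrational number has a backward continued fraction -/
theorem exists_exp (α : ℝ) (hα : Irrational α) : ∃ (a₀ : ℤ) (b q : ℕ → ℤ) (D : ℕ → ℝ),
    Exp α a₀ b q D := by
  let S : ℕ → (ℝ × ℝ) × (ℤ × ℤ) := fun k => Nat.rec ((1, Int.fract α), (0, 1))
    (fun _ v => ((v.1.2, (⌈v.1.1 / v.1.2⌉ : ℝ) * v.1.2 - v.1.1),
      (v.2.2, ⌈v.1.1 / v.1.2⌉ * v.2.2 - v.2.1))) k
  have hS0 : S 0 = ((1, Int.fract α), (0, 1)) := rfl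
  have hS : ∀ k, S (k + 1) = (((S k).1.2, (⌈(S k).1.1 / (S k).1.2⌉ : ℝ) * (S k).1.2 - (S k).1.1),
      ((S k).2.2, ⌈(S k).1.1 / (S k).1.2⌉ * (S k).2.2 - (S k).2.1)) := fun k => rfl
  -- invariants
  have inv : ∀ k, ((S k).2.2 : ℝ) * (S k).1.1 - (S k).2.1 * (S k).1.2 = 1 ∧
      (∃ p : ℤ, (S k).1.1 = (S k).2.1 * α - p) ∧ (∃ p : ℤ, (S k).1.2 = (S k).2.2 * α - p) := by
    intro k
    induction k with
    | zero =>
      rw [hS0]
      refine ⟨by norm_num, ⟨-1, by norm_num⟩, ⟨⌊α⌋, ?_⟩⟩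
      change Int.fract α = ((1 : ℤ) : ℝ) * α - (⌊α⌋ : ℝ)
      rw [Int.fract]
      push_cast
      ring
    | succ k ih =>
      obtain ⟨h1, ⟨p, hp⟩, ⟨p', hp'⟩⟩ := ih
      rw [hS]
      refine ⟨?_, ⟨p', hp'⟩, ⟨⌈(S k).1.1 / (S k).1.2⌉ * p' - p, ?_⟩⟩
      · push_cast
        linear_combination h1
      · push_cast
        linear_combination (⌈(S k).1.1 / (S k).1.2⌉ : ℝ) * hp' - hp
  have hne : ∀ k, (S k).1.2 ≠ 0 := by
    intro k h0
    obtain ⟨h1, -, ⟨p, hp⟩⟩ := inv k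
    rw [h0] at h1 hp
    have h2 : ((S k).2.2 : ℝ) ≠ 0 := by
      intro h3
      rw [h3] at h1
      norm_num at h1
    apply hα
    refine ⟨(p : ℚ) / (S k).2.2, ?_⟩
    push_cast
    rw [div_eq_iff h2]
    linarith
  have hpos : ∀ k, 0 < (S k).1.2 ∧ (S k).1.2 < (S k).1.1 := by
    intro k
    induction k with
    | zero =>
      have h1 := hne 0
      rw [hS0] at h1 ⊢
      exact ⟨lt_of_le_of_ne (Int.fract_nonneg α) (Ne.symm h1), Int.fract_lt_one α⟩
    | succ k ih =>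
      have h1 := hne (k + 1)
      rw [hS] at h1 ⊢
      simp only at h1 ⊢
      have h2 := Int.le_ceil ((S k).1.1 / (S k).1.2)
      have h3 := Int.ceil_lt_add_one ((S k).1.1 / (S k).1.2)
      have h4 : (S k).1.1 / (S k).1.2 * (S k).1.2 = (S k).1.1 := div_mul_cancel₀ _ ih.1.ne'
      constructor
      · refine lt_of_le_of_ne ?_ (Ne.symm h1)
        nlinarith [ih.1]
      · nlinarith [ih.1]
  refine ⟨⌊α⌋, fun k => ⌈(S (k - 1)).1.1 / (S (k - 1)).1.2⌉, fun k => (S k).2.1,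
    fun k => (S k).1.1, ?_, ?_, ?_, ?_, ?_, ?_, ?_, ?_⟩
  · rw [hS0]
  · change (S (0 + 1)).1.1 = _
    rw [hS, hS0]
    rfl
  · intro k
    rw [hS (k + 1), hS k]
    simp
  · intro k
    rw [hS]
    exact (hpos k).1
  · intro k
    rw [hS]
    exact (hpos k).2
  · rw [hS0]
  · rw [show (1 : ℕ) = 0 + 1 from rfl, hS, hS0]
  · intro k
    rw [hS (k + 1), hS k]
    simp

end Pool.Agent.W13.LM
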