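import Pool.Agent.W13.LM.Base

/-! # Mirror symmetric words in the code of a pair -/

set_option autoImplicit false

namespace Pool.Agent.W13.LM

variable {α : ℝ} {a₀ : ℤ} {b q : ℕ → ℤ} {D : ℕ → ℝ}

/-- a solution of the homogeneous recurrence which is bounded in a window is small in the middle -/
lemma window {c : ℝ} (hc : 0 < c) (hc1 : c ≤ 1 / 2) (E : Exp α a₀ b q D)
    (hbad : ∀ q : ℕ, 0 < q → c ≤ (q : ℝ) * |(q : ℝ) * α - (round ((q : ℝ) * α) : ℝ)|)
    (u : ℕ → ℝ) (l m r : ℕ) (hlm : l + 1 ≤ m) (hmr : m ≤ r) (B : ℝ) (hB0 : 0 ≤ B)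
    (hB : ∀ k, |u k| ≤ B)
    (hu : ∀ k, l ≤ k → k < r → u (k + 2) = b (k + 1) * u (k + 1) - u k) :
    c * |u m| ≤ 2 * B * ((1 - c) ^ (r - m) + (1 - c) ^ (m - (l + 1))) := by
  set X : ℕ → ℝ := fun k => u (k + 1) * D k - u k * D (k + 1) with hX
  set Y : ℕ → ℝ := fun k => q (k + 1) * u k - q k * u (k + 1) with hY
  have hconst : ∀ k, l + k ≤ r → X (l + k) = X l ∧ Y (l + k) = Y l := by
    intro k
    induction k with
    | zero => intro _; exact ⟨rfl, rfl⟩
    | succ k ih =>
      intro hk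
      obtain ⟨h1, h2⟩ := ih (by omega)
      have h3 := hu (l + k) (by omega) (by omega)
      have h4 := E.Dr (l + k)
      have h5 : (q (l + k + 2) : ℝ) = b (l + k + 1) * q (l + k + 1) - q (l + k) := by
        rw [E.qr]; push_cast; ring
      constructor
      · rw [← h1]
        simp only [hX, ← add_assoc]
        rw [show l + k + 1 + 1 = l + k + 2 by ring, h3, h4]
        ring
      · rw [← h2]
        simp only [hY, ← add_assoc]
        rw [show l + k + 1 + 1 = l + k + 2 by ring, h3, h5]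
        ring
  have hm : X m = X l ∧ Y m = Y l := by
    have := hconst (m - l) (by omega)
    rwa [show l + (m - l) = m by omega] at this
  have hr : X r = X l := by
    have := (hconst (r - l) (by omega)).1
    rwa [show l + (r - l) = r by omega] at this
  have hrep : u m = q m * X m + D m * Y m := by
    have w := E.wron m
    simp only [hX, hY]
    linear_combination (-u m) * w
  have hXb : |X m| ≤ 2 * B * D r := by
    rw [hm.1, ← hr]
    simp only [hX]
    have h1 := hB (r + 1)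
    have h2 := hB r
    have h3 := E.pos r
    have h4 := E.pos (r + 1)
    have h5 := E.Dl r
    calc |u (r + 1) * D r - u r * D (r + 1)| ≤ |u (r + 1) * D r| + |u r * D (r + 1)| := abs_sub _ _
      _ = |u (r + 1)| * D r + |u r| * D (r + 1) := by
          rw [abs_mul, abs_mul, abs_of_pos h3, abs_of_pos h4]
      _ ≤ B * D r + B * D r := by gcongr
      _ = _ := by ring
  have hYb : |Y m| ≤ 2 * B * q (l + 1) := by
    rw [hm.2]
    simp only [hY]
    have h1 := hB (l + 1)
    have h2 := hB l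
    have h3 := E.qnonneg l
    have h4 := E.qnonneg (l + 1)
    have h5 := E.qlt l
    calc |q (l + 1) * u l - q l * u (l + 1)| ≤ |q (l + 1) * u l| + |q l * u (l + 1)| := abs_sub _ _
      _ = q (l + 1) * |u l| + q l * |u (l + 1)| := by
          rw [abs_mul, abs_mul, abs_of_nonneg h3, abs_of_nonneg h4]
      _ ≤ q (l + 1) * B + q (l + 1) * B := by
          gcongr
          exact (E.qmono (Nat.lt_succ_self l)).le
      _ = _ := by ring
  have p1 := pow_decay hc E hbad hc1 m (r - m)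
  have p2 := pow_decay hc E hbad hc1 (l + 1) (m - (l + 1))
  rw [show m + (r - m) = r by omega] at p1
  rw [show l + 1 + (m - (l + 1)) = m by omega] at p2
  have hqm := E.qnonneg m
  have hDm := E.pos m
  calc c * |u m| ≤ c * (q m * (2 * B * D r) + D m * (2 * B * q (l + 1))) := by
        rw [hrep]
        refine mul_le_mul_of_nonneg_left ?_ hc.le
        calc |q m * X m + D m * Y m| ≤ |q m * X m| + |D m * Y m| := abs_add_le _ _
          _ = q m * |X m| + D m * |Y m| := by
              rw [abs_mul, abs_mul, abs_of_nonneg hqm, abs_of_pos hDm]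
          _ ≤ _ := by gcongr
    _ = 2 * B * (c * (q m * D r) + c * (q (l + 1) * D m)) := by ring
    _ ≤ _ := by gcongr

/-- **Mirror words.**  If the code `(b (k + 1), z k)`, `z k = n (k + 2) + n k - b (k + 1) n (k + 1)`,
contains arbitrarily long mirror symmetric words (up to a sign of `z`), the conjecture holds. -/
theorem mirror (E : Exp α a₀ b q D) (β : ℝ) (B : ℝ)
    (h : ∀ K : ℕ, ∃ (n : ℕ → ℤ) (s : ℕ) (σ : ℤ), 2 * K ≤ s ∧ (σ = 1 ∨ σ = -1) ∧
      (∀ k, |(q k : ℝ) * β - n k| ≤ B) ∧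
      ∀ i j : ℕ, i + j = s → i ≤ j + 2 * K → j ≤ i + 2 * K → b (i + 1) = b (j + 1) ∧
        n (i + 2) + n i - b (i + 1) * n (i + 1)
          = σ * (n (j + 2) + n j - b (j + 1) * n (j + 1))) : LC α β := by
  by_contra hcon
  obtain ⟨c, hc, hc1, hbad, hprod⟩ := bad_of_not_lc hcon
  have hB0 : 0 ≤ B := by
    obtain ⟨n, s, σ, -, -, h1, -⟩ := h 0
    exact (abs_nonneg _).trans (h1 0)
  -- choose K
  have h1c : 0 ≤ 1 - c := by linarith
  have hsmall : ∃ K : ℕ, 2 * (2 * B) * ((1 - c) ^ K + (1 - c) ^ K) * (4 * (c + 1) ^ 2) < c ^ 5 := by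
    have ht : Filter.Tendsto (fun K : ℕ => 2 * (2 * B) * ((1 - c) ^ K + (1 - c) ^ K)
        * (4 * (c + 1) ^ 2)) Filter.atTop (nhds (2 * (2 * B) * (0 + 0) * (4 * (c + 1) ^ 2))) := by
      have h2 := tendsto_pow_atTop_nhds_zero_of_lt_one h1c (by linarith : 1 - c < 1)
      exact ((h2.add h2).const_mul _).mul_const _
    rw [show 2 * (2 * B) * (0 + 0) * (4 * (c + 1) ^ 2) = 0 by ring] at ht
    exact (ht.eventually (gt_mem_nhds (by positivity))).exists
  obtain ⟨K, hK⟩ := hsmall
  obtain ⟨n, s, σ, hs, hσ, hn, hsym⟩ := h (K + 1)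
  set g : ℕ → ℝ := fun k => (q k : ℝ) * β - n k with hg
  have hrec : ∀ k, g (k + 2) = b (k + 1) * g (k + 1) - g k
      - ((n (k + 2) + n k - b (k + 1) * n (k + 1) : ℤ) : ℝ) := by
    intro k
    simp only [hg]
    have h5 : (q (k + 2) : ℝ) = b (k + 1) * q (k + 1) - q k := by
      rw [E.qr]; push_cast; ring
    rw [h5]
    push_cast
    ring
  set h' : ℕ := s / 2 with hh'
  have hσσ : (σ : ℝ) * σ = 1 := by rcases hσ with rfl | rfl <;> norm_num
  have hσa : |(σ : ℝ)| = 1 := by rcases hσ with rfl | rfl <;> norm_num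
  set u : ℕ → ℝ := fun m => g m - σ * g (s + 2 - m) with hu
  have hub : ∀ k, |u k| ≤ 2 * B := by
    intro k
    simp only [hu]
    calc |g k - σ * g (s + 2 - k)| ≤ |g k| + |σ * g (s + 2 - k)| := abs_sub _ _
      _ = |g k| + |g (s + 2 - k)| := by rw [abs_mul, hσa, one_mul]
      _ ≤ B + B := add_le_add (hn _) (hn _)
      _ = _ := by ring
  have hur : ∀ k, h' - K ≤ k → k < h' + K + 2 → u (k + 2) = b (k + 1) * u (k + 1) - u k := by
    intro k hk1 hk2
    obtain ⟨hb, hz⟩ := hsym k (s - k) (by omega) (by omega) (by omega)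
    simp only [hu]
    rw [show s + 2 - (k + 2) = s - k by omega, show s + 2 - (k + 1) = s - k + 1 by omega,
      show s + 2 - k = s - k + 2 by omega, hrec k, hrec (s - k), ← hb]
    rw [← hb] at hz
    have hz' : (((n (k + 2) + n k - b (k + 1) * n (k + 1) : ℤ) : ℝ))
        = σ * ((n (s - k + 2) + n (s - k) - b (k + 1) * n (s - k + 1) : ℤ) : ℝ) := by
      exact_mod_cast hz
    rw [hz']
    push_cast
    ring
  have hwin := window hc hc1 E hbad u (h' - K) (h' + 2) (h' + K + 2) (by omega) (by omega) (2 * B)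
    (by linarith) hub hur
  rw [show h' + K + 2 - (h' + 2) = K by omega,
    show h' + 2 - (h' - K + 1) = K + 1 by omega] at hwin
  -- the denominator
  obtain ⟨p, hp⟩ := E.integ
  set t : ℕ := s + 2 - (h' + 2) with ht
  have ht1 : t ≤ h' + 1 := by omega
  have ht0 : h' ≤ t := by omega
  have hqt : q t < q (h' + 2) := E.qmono (by omega)
  have hq0 := (E.qstep t).1
  set Q : ℤ := q (h' + 2) - σ * q t with hQ
  have hQpos : 0 < Q := by rcases hσ with rfl | rfl <;> simp only [hQ] <;> linarith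
  have hQle : Q ≤ 2 * q (h' + 2) := by rcases hσ with rfl | rfl <;> simp only [hQ] <;> linarith
  obtain ⟨Qn, hQn⟩ := Int.eq_ofNat_of_zero_le hQpos.le
  have hQn0 : 0 < Qn := by omega
  have hQr : (Qn : ℝ) = q (h' + 2) - σ * q t := by
    have : ((Q : ℤ) : ℝ) = ((Qn : ℤ) : ℝ) := by rw [hQn]
    rw [Int.cast_natCast] at this
    rw [← this, hQ]
    push_cast
    ring
  have hD1 : |(Qn : ℝ) * α - round ((Qn : ℝ) * α)| ≤ 2 * D h' := by
    refine (round_le ((Qn : ℝ) * α) (p (h' + 2) - σ * p t)).trans ?_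
    have : (Qn : ℝ) * α - ((p (h' + 2) - σ * p t : ℤ) : ℝ) = D (h' + 2) - σ * D t := by
      rw [hQr, hp, hp]; push_cast; ring
    rw [this]
    calc |D (h' + 2) - σ * D t| ≤ |D (h' + 2)| + |σ * D t| := abs_sub _ _
      _ = D (h' + 2) + D t := by
          rw [abs_mul, hσa, one_mul, abs_of_pos (E.pos _), abs_of_pos (E.pos _)]
      _ ≤ D h' + D h' := add_le_add (E.anti (by omega)) (E.anti (by omega))
      _ = _ := by ring
  have hD2 : |(Qn : ℝ) * β - round ((Qn : ℝ) * β)| ≤ |u (h' + 2)| := by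
    refine (round_le ((Qn : ℝ) * β) (n (h' + 2) - σ * n t)).trans (le_of_eq ?_)
    congr 1
    simp only [hu, hg, ← ht]
    rw [hQr]
    push_cast
    ring
  have hfin := hprod Qn hQn0
  have hts := two_step hc E hbad h'
  have hQle' : (Qn : ℝ) ≤ 2 * q (h' + 2) := by
    have : ((Q : ℤ) : ℝ) = ((Qn : ℤ) : ℝ) := by rw [hQn]
    rw [Int.cast_natCast] at this
    rw [← this]
    exact_mod_cast hQle
  have hDh := E.pos h'
  have hqh := E.qnonneg (h' + 2)
  have key : c ≤ (2 * q (h' + 2)) * (2 * D h') * |u (h' + 2)| := by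
    refine hfin.trans ?_
    gcongr
  have hpw : (1 - c) ^ (K + 1) ≤ (1 - c) ^ K := by
    rw [pow_succ]
    have : 0 ≤ (1 - c) ^ K := by positivity
    nlinarith
  have hu0 := abs_nonneg (u (h' + 2))
  have key2 : c ^ 5 ≤ (4 * (c + 1) ^ 2) * (2 * (2 * B) * ((1 - c) ^ K + (1 - c) ^ K)) := by
    calc c ^ 5 = c ^ 4 * c := by ring
      _ ≤ c ^ 4 * ((2 * q (h' + 2)) * (2 * D h') * |u (h' + 2)|) := by gcongr
      _ = (4 * (c ^ 3 * (q (h' + 2) * D h'))) * (c * |u (h' + 2)|) := by ring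
      _ ≤ (4 * (c + 1) ^ 2) * (2 * (2 * B) * ((1 - c) ^ K + (1 - c) ^ (K + 1))) := by
          gcongr
      _ ≤ _ := by gcongr
  linarith

end Pool.Agent.W13.LM
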