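import Pool.Agent.W13.LM.Dense
import Pool.Agent.W13.LM.Digits

/-! # Polynomial codes have long mirror words -/

set_option autoImplicit false

open Finset Polynomial Topology

namespace Pool.Agent.W13.LM

/-- the index set of the non leading Taylor coefficients -/
abbrev Idx {r : ℕ} (P : Fin r → ℝ[X]) : Type := Σ i : Fin r, Fin (P i).natDegree

/-- the non leading Taylor coefficients as polynomials in the centre -/
noncomputable def QQ {r : ℕ} (P : Fin r → ℝ[X]) (x : Idx P) : ℝ[X] := hasseDeriv x.2 (P x.1)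

lemma QQ_indep {r : ℕ} (P : Fin r → ℝ[X])
    (hlin : ∀ (h : Fin r → ℤ) (m : ℤ), ∑ i, (h i : ℝ) * (P i).leadingCoeff = m → h = 0)
    (h : Idx P → ℤ) (hh : h ≠ 0) : ∃ d : ℕ, (∑ x, C (h x : ℝ) * QQ P x).natDegree ≤ d + 1 ∧
      Irrational ((∑ x, C (h x : ℝ) * QQ P x).coeff (d + 1)) := by
  classical
  have hne : (univ.filter fun x : Idx P => h x ≠ 0).Nonempty := by
    by_contra h0
    rw [not_nonempty_iff_eq_empty, filter_eq_empty_iff] at h0
    apply hh
    funext x
    have := h0 (mem_univ x)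
    push Not at this
    exact this
  obtain ⟨x₀, hx₀, hmax⟩ := exists_max_image _ (fun x : Idx P => (P x.1).natDegree - (x.2 : ℕ)) hne
  have hx₀' : h x₀ ≠ 0 := (mem_filter.1 hx₀).2
  have hx2 : (x₀.2 : ℕ) < (P x₀.1).natDegree := x₀.2.2
  obtain ⟨d, hd⟩ : ∃ d, (P x₀.1).natDegree - (x₀.2 : ℕ) = d + 1 :=
    ⟨(P x₀.1).natDegree - (x₀.2 : ℕ) - 1, by omega⟩
  have hcoef : ∀ e, (∑ x, C (h x : ℝ) * QQ P x).coeff e
      = ∑ x : Idx P, (h x : ℝ) * (((e + (x.2 : ℕ)).choose (x.2 : ℕ) : ℝ)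
        * (P x.1).coeff (e + (x.2 : ℕ))) := by
    intro e
    rw [finsetSum_coeff]
    refine sum_congr rfl fun x _ => ?_
    rw [coeff_C_mul, QQ, hasseDeriv_coeff]
  have hle : ∀ x : Idx P, h x ≠ 0 → (P x.1).natDegree ≤ d + 1 + (x.2 : ℕ) := by
    intro x hx
    have h1 := hmax x (mem_filter.2 ⟨mem_univ _, hx⟩)
    have h2 : (x.2 : ℕ) < (P x.1).natDegree := x.2.2
    omega
  refine ⟨d, ?_, ?_⟩
  · rw [natDegree_le_iff_coeff_eq_zero]
    intro e he
    rw [hcoef]
    refine sum_eq_zero fun x _ => ?_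
    by_cases hx : h x = 0
    · rw [hx]; simp
    · have := hle x hx
      rw [coeff_eq_zero_of_natDegree_lt (by omega)]
      simp
  · -- the integer combination
    set H : Fin r → ℤ := fun i => ∑ l : Fin (P i).natDegree,
      if d + 1 + (l : ℕ) = (P i).natDegree then h ⟨i, l⟩ * ((d + 1 + (l : ℕ)).choose (l : ℕ) : ℤ)
        else 0 with hH
    have hc : (∑ x, C (h x : ℝ) * QQ P x).coeff (d + 1)
        = ∑ i, (H i : ℝ) * (P i).leadingCoeff := by
      rw [hcoef, Fintype.sum_sigma]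
      refine sum_congr rfl fun i _ => ?_
      rw [hH]
      push_cast
      rw [sum_mul]
      refine sum_congr rfl fun l _ => ?_
      split_ifs with hl
      · rw [hl, leadingCoeff]
        ring
      · by_cases hx : h ⟨i, l⟩ = 0
        · rw [hx]; simp
        · have := hle ⟨i, l⟩ hx
          simp only at this
          rw [coeff_eq_zero_of_natDegree_lt (by omega)]
          simp
    have hH0 : H x₀.1 ≠ 0 := by
      have h1 : H x₀.1 = h x₀ * ((d + 1 + (x₀.2 : ℕ)).choose (x₀.2 : ℕ) : ℤ) := by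
        rw [hH]
        simp only
        rw [sum_eq_single x₀.2]
        · rw [if_pos (by omega)]
        · intro l _ hl
          rw [if_neg]
          intro h2
          apply hl
          ext
          omega
        · intro h2
          exact absurd (mem_univ _) h2
      rw [h1]
      refine mul_ne_zero hx₀' ?_
      have : 0 < (d + 1 + (x₀.2 : ℕ)).choose (x₀.2 : ℕ) := Nat.choose_pos (by omega)
      exact_mod_cast this.ne'
    rw [hc]
    rintro ⟨v, hv⟩
    have h3 : ∑ i, (((v.den : ℤ) * H i : ℤ) : ℝ) * (P i).leadingCoeff = ((v.num : ℤ) : ℝ) := by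
      have h4 : (v.den : ℝ) * (v : ℝ) = v.num := by
        have := Rat.mul_den_eq_num v
        have h2 : ((v * v.den : ℚ) : ℝ) = ((v.num : ℚ) : ℝ) := by rw [this]
        push_cast at h2
        linarith
      rw [← h4, hv, mul_sum]
      refine sum_congr rfl fun i _ => ?_
      push_cast
      ring
    have h5 := congrFun (hlin _ _ h3) x₀.1
    simp only [Pi.zero_apply] at h5
    exact mul_ne_zero (by exact_mod_cast v.den_pos.ne') hH0 h5

lemma eval_shift (p : ℝ[X]) (c k : ℝ) : p.eval (k + c)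
    = (∑ l : Fin p.natDegree, (hasseDeriv l p).eval c * k ^ (l : ℕ))
      + p.leadingCoeff * k ^ p.natDegree := by
  rw [← taylor_eval, eval_eq_sum_range, natDegree_taylor, sum_range_succ, coeff_taylor_natDegree,
    ← Fin.sum_univ_eq_sum_range (fun l => (taylor c p).coeff l * k ^ l)]
  congr 1
  exact sum_congr rfl fun l _ => by rw [taylor_coeff]

/-- `F` is locally constant at `y` -/
def LocConst {r : ℕ} (F : (Fin r → ℝ) → ℤ × ℤ) (y : Fin r → ℝ) : Prop := ∀ᶠ z in 𝓝 y, F z = F y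

theorem poly_mirror {r : ℕ} (P : Fin r → ℝ[X]) (hdeg : ∀ i, 0 < (P i).natDegree)
    (hlin : ∀ (h : Fin r → ℤ) (m : ℤ), ∑ i, (h i : ℝ) * (P i).leadingCoeff = m → h = 0)
    (F : (Fin r → ℝ) → ℤ × ℤ)
    (hper : ∀ (x : Fin r → ℝ) (m : Fin r → ℤ), F (fun i => x i + m i) = F x)
    (hflip : ∀ y, F (fun i => (-1) ^ (P i).natDegree * y i) = F y)
    (χ : Fin r → ℝ) (hχ : ∀ i, Odd (P i).natDegree → ∃ m : ℤ, 2 * χ i = m)
    (hloc : ∀ k : ℤ, k ≠ 0 →
      LocConst F (fun i => χ i + (P i).leadingCoeff * (k : ℝ) ^ (P i).natDegree))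
    (K : ℕ) : ∃ c : ℕ, K + 1 ≤ c ∧ ∀ k : ℕ, k ≤ K →
      F (fun i => (P i).eval ((c + k : ℕ) : ℝ)) = F (fun i => (P i).eval ((c - k : ℕ) : ℝ)) := by
  classical
  -- uniform radius
  set y : ℤ → Fin r → ℝ := fun k i => χ i + (P i).leadingCoeff * (k : ℝ) ^ (P i).natDegree with hy
  have hrad : ∀ k : ℤ, k ≠ 0 → ∃ δ : ℝ, 0 < δ ∧ ∀ z : Fin r → ℝ, (∀ i, |z i| < δ) →
      F (fun i => y k i + z i) = F (y k) := by
    intro k hk
    have h1 := hloc k hk
    unfold LocConst at h1
    rw [Metric.eventually_nhds_iff] at h1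
    obtain ⟨δ, hδ, h2⟩ := h1
    refine ⟨δ, hδ, fun z hz => h2 ?_⟩
    rw [dist_pi_lt_iff hδ]
    intro i
    rw [Real.dist_eq]
    have : y k i + z i - (χ i + (P i).leadingCoeff * (k : ℝ) ^ (P i).natDegree) = z i := by
      simp only [hy]; ring
    rw [this]
    exact hz i
  choose! δf hδf hδF using hrad
  obtain ⟨δ, hδ, hδle⟩ : ∃ δ : ℝ, 0 < δ ∧ ∀ k : ℤ, k ≠ 0 → |k| ≤ K → δ ≤ δf k := by
    have hfin : ∀ s : Finset ℤ, (∀ k ∈ s, k ≠ 0) → ∃ δ : ℝ, 0 < δ ∧ ∀ k ∈ s, δ ≤ δf k := by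
      intro s
      induction s using Finset.induction_on with
      | empty => intro _; exact ⟨1, one_pos, by simp⟩
      | insert a s ha ih =>
        intro hs
        obtain ⟨δ, h1, h2⟩ := ih fun k hk => hs k (mem_insert_of_mem hk)
        refine ⟨min δ (δf a), lt_min h1 (hδf a (hs a (mem_insert_self _ _))), ?_⟩
        intro k hk
        rcases mem_insert.1 hk with rfl | hk
        · exact min_le_right _ _
        · exact (min_le_left _ _).trans (h2 k hk)
    obtain ⟨δ, h1, h2⟩ := hfin ((Icc (-(K : ℤ)) K).filter fun k => k ≠ 0)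
      fun k hk => (mem_filter.1 hk).2
    refine ⟨δ, h1, fun k hk0 hk => h2 k (mem_filter.2 ⟨?_, hk0⟩)⟩
    rw [abs_le] at hk
    exact mem_Icc.2 hk
  set M : ℝ := ∑ i, ((P i).natDegree : ℝ) * ((K : ℝ) + 1) ^ (P i).natDegree with hM
  have hM0 : 0 ≤ M := by positivity
  set tgt : Idx P → ℝ := fun x => if (x.2 : ℕ) = 0 then χ x.1 else 0 with htgt
  obtain ⟨c, hc, hcQ⟩ := dense_poly (QQ P) (QQ_indep P hlin) tgt (δ / (M + 1)) (by positivity)
    (K + 1)
  refine ⟨c, hc, ?_⟩
  -- the main computation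
  have hmain : ∀ k : ℤ, k ≠ 0 → |k| ≤ K → F (fun i => (P i).eval ((k : ℝ) + c)) = F (y k) := by
    intro k hk0 hk
    have hkr : |(k : ℝ)| ≤ K := by exact_mod_cast hk
    -- error and integer parts
    set ee : Idx P → ℝ := fun x => ((QQ P x).eval (c : ℝ) - tgt x)
      - round ((QQ P x).eval (c : ℝ) - tgt x) with hee
    set mm : Idx P → ℤ := fun x => round ((QQ P x).eval (c : ℝ) - tgt x) with hmm
    have h1 : ∀ i, (P i).eval ((k : ℝ) + c) = (y k i + ∑ l : Fin (P i).natDegree,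
        ee ⟨i, l⟩ * (k : ℝ) ^ (l : ℕ)) + ((∑ l : Fin (P i).natDegree,
        mm ⟨i, l⟩ * k ^ (l : ℕ) : ℤ) : ℝ) := by
      intro i
      rw [eval_shift]
      have h2 : ∀ l : Fin (P i).natDegree, (hasseDeriv l (P i)).eval (c : ℝ) * (k : ℝ) ^ (l : ℕ)
          = ee ⟨i, l⟩ * (k : ℝ) ^ (l : ℕ) + (mm ⟨i, l⟩ : ℝ) * (k : ℝ) ^ (l : ℕ)
            + (if (l : ℕ) = 0 then χ i else 0) := by
        intro l
        have h3 : (hasseDeriv l (P i)).eval (c : ℝ) = ee ⟨i, l⟩ + mm ⟨i, l⟩
            + (if (l : ℕ) = 0 then χ i else 0) := by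
          simp only [hee, hmm, htgt, QQ]
          ring
        rw [h3]
        split_ifs with hl
        · rw [hl]; ring
        · ring
      rw [sum_congr rfl fun l _ => h2 l, sum_add_distrib, sum_add_distrib]
      have h4 : ∑ l : Fin (P i).natDegree, (if (l : ℕ) = 0 then χ i else 0) = χ i := by
        rw [sum_eq_single (⟨0, hdeg i⟩ : Fin (P i).natDegree)]
        · simp
        · intro l _ hl
          rw [if_neg]
          intro h5
          apply hl
          ext
          exact h5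
        · intro h5
          exact absurd (mem_univ _) h5
      rw [h4]
      simp only [hy]
      push_cast
      ring
    have h2 : (fun i => (P i).eval ((k : ℝ) + c)) = fun i => (y k i + ∑ l : Fin (P i).natDegree,
        ee ⟨i, l⟩ * (k : ℝ) ^ (l : ℕ)) + ((∑ l : Fin (P i).natDegree,
        mm ⟨i, l⟩ * k ^ (l : ℕ) : ℤ) : ℝ) := funext h1
    rw [h2, hper (fun i => y k i + ∑ l : Fin (P i).natDegree,
        ee ⟨i, l⟩ * (k : ℝ) ^ (l : ℕ)) (fun i => ∑ l : Fin (P i).natDegree,
        mm ⟨i, l⟩ * k ^ (l : ℕ))]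
    refine hδF k hk0 _ ?_
    intro i
    refine lt_of_lt_of_le ?_ (hδle k hk0 hk)
    have h3 : |∑ l : Fin (P i).natDegree, ee ⟨i, l⟩ * (k : ℝ) ^ (l : ℕ)|
        ≤ ∑ l : Fin (P i).natDegree, (δ / (M + 1)) * ((K : ℝ) + 1) ^ (P i).natDegree := by
      refine (abs_sum_le_sum_abs _ _).trans (sum_le_sum fun l _ => ?_)
      rw [abs_mul, abs_pow]
      have h4 := (hcQ ⟨i, l⟩).le
      have h5 : |(k : ℝ)| ^ (l : ℕ) ≤ ((K : ℝ) + 1) ^ (P i).natDegree := by
        calc |(k : ℝ)| ^ (l : ℕ) ≤ ((K : ℝ) + 1) ^ (l : ℕ) := by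
              gcongr
              linarith
          _ ≤ _ := pow_le_pow_right₀ (by linarith [(Nat.cast_nonneg K : (0:ℝ) ≤ K)]) l.2.le
      gcongr
    refine lt_of_le_of_lt h3 ?_
    rw [sum_const, card_univ, Fintype.card_fin, nsmul_eq_mul]
    have h4 : ((P i).natDegree : ℝ) * ((K : ℝ) + 1) ^ (P i).natDegree ≤ M := by
      rw [hM]
      exact single_le_sum (f := fun i => ((P i).natDegree : ℝ) * ((K : ℝ) + 1) ^ (P i).natDegree)
        (fun i _ => by positivity) (mem_univ i)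
    calc ((P i).natDegree : ℝ) * ((δ / (M + 1)) * ((K : ℝ) + 1) ^ (P i).natDegree)
        = (δ / (M + 1)) * (((P i).natDegree : ℝ) * ((K : ℝ) + 1) ^ (P i).natDegree) := by ring
      _ ≤ (δ / (M + 1)) * M := by gcongr
      _ < (δ / (M + 1)) * (M + 1) := by
          have : 0 < δ / (M + 1) := by positivity
          nlinarith
      _ = δ := by field_simp
  have hsym : ∀ k : ℤ, F (y (-k)) = F (y k) := by
    intro k
    have h1 : ∀ i, ∃ m : ℤ, y (-k) i = (-1) ^ (P i).natDegree * y k i + m := by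
      intro i
      simp only [hy]
      rcases Nat.even_or_odd (P i).natDegree with h | h
      · refine ⟨0, ?_⟩
        push_cast
        rw [h.neg_pow, h.neg_one_pow]
        ring
      · obtain ⟨m, hm⟩ := hχ i h
        refine ⟨m, ?_⟩
        push_cast
        rw [h.neg_pow, h.neg_one_pow, ← hm]
        ring
    choose m hm using h1
    have h2 : y (-k) = fun i => (-1) ^ (P i).natDegree * y k i + m i := funext hm
    rw [h2, hper (fun i => (-1) ^ (P i).natDegree * y k i) m, hflip]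
  intro k hk
  rcases Nat.eq_zero_or_pos k with rfl | hk0
  · simp
  · have e1 : (fun i => (P i).eval ((c + k : ℕ) : ℝ)) = fun i => (P i).eval (((k : ℤ) : ℝ) + c) := by
      funext i
      congr 1
      push_cast
      ring
    have e2 : (fun i => (P i).eval ((c - k : ℕ) : ℝ))
        = fun i => (P i).eval (((-(k : ℤ) : ℤ) : ℝ) + c) := by
      funext i
      congr 1
      rw [Nat.cast_sub (by omega)]
      push_cast
      ring
    rw [e1, e2, hmain k (by omega) (by simpa using hk), hmain (-(k : ℤ)) (by omega)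
      (by simpa using hk), hsym]

/-- for even degrees a good centre exists as soon as `F` is locally constant almost everywhere -/
lemma exists_chi {r : ℕ} (P : Fin r → ℝ[X]) (F : (Fin r → ℝ) → ℤ × ℤ)
    (hae : ∀ᵐ y, LocConst F y) : ∃ χ : Fin r → ℝ, ∀ k : ℤ,
      LocConst F (fun i => χ i + (P i).leadingCoeff * (k : ℝ) ^ (P i).natDegree) := by
  have h1 : ∀ k : ℤ, ∀ᵐ χ : Fin r → ℝ,
      LocConst F (fun i => χ i + (P i).leadingCoeff * (k : ℝ) ^ (P i).natDegree) := by
    intro k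
    have h2 := (MeasureTheory.measurePreserving_add_right
      (MeasureTheory.volume : MeasureTheory.Measure (Fin r → ℝ))
      (fun i => (P i).leadingCoeff * (k : ℝ) ^ (P i).natDegree)).quasiMeasurePreserving.ae hae
    exact h2
  exact ((MeasureTheory.ae_all_iff).2 h1).exists

end Pool.Agent.W13.LM
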